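import Mathlib

/-!
# Induced 2-regular subgraphs: degree counts and the core lemma
-/

namespace H93.CI

set_option linter.unusedSectionVars false

open Finset

variable {V : Type*} [Fintype V] [DecidableEq V] (G : SimpleGraph V) [DecidableRel G.Adj]

/-- number of neighbours of `v` in `X` -/
def dg (X : Finset V) (v : V) : ℕ := (X.filter (fun y => G.Adj v y)).card

variable {G}

theorem dg_union {A B : Finset V} (h : Disjoint A B) (v : V) :
    dg G (A ∪ B) v = dg G A v + dg G B v := by
  unfold dg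
  rw [filter_union, card_union_of_disjoint (disjoint_filter_filter h)]

theorem dg_mono {A B : Finset V} (h : A ⊆ B) (v : V) : dg G A v ≤ dg G B v :=
  card_le_card (filter_subset_filter _ h)

theorem dg_univ (v : V) : dg G univ v = G.degree v := by
  rw [dg, ← SimpleGraph.card_neighborFinset_eq_degree]
  congr 1
  ext y
  simp

theorem dg_le_degree (A : Finset V) (v : V) : dg G A v ≤ G.degree v := by
  rw [← dg_univ]
  exact dg_mono (subset_univ _) v

theorem dg_compl (A : Finset V) (v : V) : dg G A v + dg G (univ \ A) v = G.degree v := by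
  rw [← dg_union disjoint_sdiff, union_sdiff_of_subset (subset_univ _), dg_univ]

theorem dg_eq_sum (X : Finset V) (v : V) : dg G X v = ∑ y ∈ X, if G.Adj v y then 1 else 0 := by
  rw [dg, card_filter]

theorem dg_double (A B : Finset V) : ∑ a ∈ A, dg G B a = ∑ b ∈ B, dg G A b := by
  simp only [dg_eq_sum]
  rw [sum_comm]
  refine sum_congr rfl fun b _ => sum_congr rfl fun a _ => ?_
  simp only [G.adj_comm]

theorem dg_pos {X : Finset V} {v : V} : 0 < dg G X v ↔ ∃ y ∈ X, G.Adj v y := by
  rw [dg, card_pos]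
  constructor
  · rintro ⟨y, hy⟩
    rw [mem_filter] at hy
    exact ⟨y, hy.1, hy.2⟩
  · rintro ⟨y, hy, h⟩
    exact ⟨y, mem_filter.2 ⟨hy, h⟩⟩

theorem dg_erase_self (X : Finset V) (x : V) : dg G (X.erase x) x = dg G X x := by
  unfold dg
  congr 1
  ext y
  simp only [mem_filter, mem_erase]
  constructor
  · rintro ⟨⟨_, h⟩, h2⟩
    exact ⟨h, h2⟩
  · rintro ⟨h, h2⟩
    exact ⟨⟨fun e => by subst e; exact G.irrefl h2, h⟩, h2⟩

theorem dg_erase {X : Finset V} {x : V} (hx : x ∈ X) (y : V) :
    dg G X y = dg G (X.erase x) y + if G.Adj y x then 1 else 0 := by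
  rw [dg_eq_sum, dg_eq_sum, ← Finset.add_sum_erase _ _ hx, add_comm]

/-- twice the number of edges inside `X` -/
def DD (G : SimpleGraph V) [DecidableRel G.Adj] (X : Finset V) : ℕ := ∑ x ∈ X, dg G X x

theorem DD_erase {X : Finset V} {x : V} (hx : x ∈ X) :
    DD G X = DD G (X.erase x) + 2 * dg G X x := by
  unfold DD
  have h1 : ∑ y ∈ X, dg G X y = ∑ y ∈ X, dg G (X.erase x) y + ∑ y ∈ X, if G.Adj y x then 1 else 0 := by
    rw [← sum_add_distrib]
    exact sum_congr rfl fun y _ => dg_erase hx y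
  have h2 : ∑ y ∈ X, (if G.Adj y x then 1 else 0) = dg G X x := by
    rw [dg_eq_sum]
    exact sum_congr rfl fun y _ => by simp only [G.adj_comm]
  have h3 : ∑ y ∈ X, dg G (X.erase x) y = dg G (X.erase x) x + ∑ y ∈ X.erase x, dg G (X.erase x) y :=
    (add_sum_erase _ _ hx).symm
  rw [h1, h2, h3, dg_erase_self]
  ring

theorem DD_even (X : Finset V) : Even (DD G X) := by
  induction X using Finset.induction_on with
  | empty => simp [DD]
  | insert x X hx ih =>
    rw [DD_erase (mem_insert_self x X), erase_insert hx]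
    exact ih.add (even_two_mul _)

/-- admissible triples -/
structure Ok (G : SimpleGraph V) [DecidableRel G.Adj] (F UU : Finset V) (Tm : V → Finset V)
    (φ : V → V) (U X : Finset V) : Prop where
  hU : U ⊆ UU
  hX : X ⊆ F
  hφ : ∀ u ∈ UU, ∀ t ∈ Tm u, φ t ∈ F ∧ G.Adj t (φ t)
  hw : 2 * (U.card + X.card) ≤ DD G X + 2 * ((U.biUnion Tm).filter (fun t => φ t ∈ X)).card
  hpos : 0 < U.card + X.card

theorem A_eraseU {UU : Finset V} {Tm : V → Finset V}
    (hdis : ∀ u ∈ UU, ∀ v ∈ UU, u ≠ v → Disjoint (Tm u) (Tm v)) {U : Finset V} (hU : U ⊆ UU)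
    {u : V} (hu : u ∈ U) (p : V → Prop) [DecidablePred p] :
    ((U.biUnion Tm).filter p).card =
      (((U.erase u).biUnion Tm).filter p).card + ((Tm u).filter p).card := by
  have h1 : U.biUnion Tm = Tm u ∪ (U.erase u).biUnion Tm := by
    conv_lhs => rw [← insert_erase hu]
    rw [biUnion_insert]
  have h2 : Disjoint (Tm u) ((U.erase u).biUnion Tm) := by
    rw [disjoint_biUnion_right]
    intro v hv
    rw [mem_erase] at hv
    exact hdis u (hU hu) v (hU hv.2) (Ne.symm hv.1)
  rw [h1, filter_union, card_union_of_disjoint (disjoint_filter_filter h2), add_comm]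

theorem card_T {UU : Finset V} {Tm : V → Finset V}
    (hdis : ∀ u ∈ UU, ∀ v ∈ UU, u ≠ v → Disjoint (Tm u) (Tm v))
    (hcard : ∀ u ∈ UU, (Tm u).card = 2) {U : Finset V} (hU : U ⊆ UU) :
    (U.biUnion Tm).card = 2 * U.card := by
  rw [card_biUnion (fun u hu v hv huv => hdis u (hU hu) v (hU hv) huv),
    sum_congr rfl (fun u hu => hcard u (hU hu)), sum_const, smul_eq_mul, mul_comm]

theorem A_eraseX (T X : Finset V) (φ : V → V) {x : V} (hx : x ∈ X) :
    (T.filter (fun t => φ t ∈ X)).card =
      (T.filter (fun t => φ t ∈ X.erase x)).card + (T.filter (fun t => φ t = x)).card := by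
  rw [← card_union_of_disjoint]
  · congr 1
    ext t
    simp only [mem_filter, mem_union, mem_erase]
    constructor
    · rintro ⟨h1, h2⟩
      by_cases h : φ t = x
      · exact Or.inr ⟨h1, h⟩
      · exact Or.inl ⟨h1, h, h2⟩
    · rintro (⟨h1, _, h2⟩ | ⟨h1, h2⟩)
      · exact ⟨h1, h2⟩
      · exact ⟨h1, h2 ▸ hx⟩
  · rw [disjoint_left]
    intro t ht ht'
    simp only [mem_filter, mem_erase] at ht ht'
    exact ht.2.1 ht'.2

/-- the weight at `x` -/
def qq (G : SimpleGraph V) [DecidableRel G.Adj] (T X : Finset V) (φ : V → V) (x : V) : ℕ :=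
  dg G X x + (T.filter (fun t => φ t = x)).card

theorem minq {F UU : Finset V} {Tm : V → Finset V}
    (hdis : ∀ u ∈ UU, ∀ v ∈ UU, u ≠ v → Disjoint (Tm u) (Tm v))
    (hcard : ∀ u ∈ UU, (Tm u).card = 2)
    (hTF : ∀ u ∈ UU, ∀ t ∈ Tm u, t ∉ F)
    (hdeg : ∀ v, G.degree v ≤ 3) {φ : V → V} {U X : Finset V} (hO : Ok G F UU Tm φ U X)
    (hmin : ∀ φ' U' X', Ok G F UU Tm φ' U' X' → U.card + X.card ≤ U'.card + X'.card) :
    (∀ t ∈ U.biUnion Tm, φ t ∈ X) ∧ ∀ x ∈ X, qq G (U.biUnion Tm) X φ x = 2 := by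
  obtain ⟨hU, hX, hφ, hw, hpos⟩ := hO
  have hcT := card_T hdis hcard hU
  have hXne : X.Nonempty := by
    rw [nonempty_iff_ne_empty]
    rintro rfl
    have hA : ((U.biUnion Tm).filter (fun t => φ t ∈ (∅ : Finset V))).card = 0 := by simp
    have hD : DD G (∅ : Finset V) = 0 := by simp [DD]
    rw [hA, hD] at hw
    omega
  have hXpos := hXne.card_pos
  have hsum2 : 2 ≤ U.card + X.card := by
    by_contra hlt
    have h1 : U.card = 0 := by omega
    have h2 : X.card = 1 := by omega
    rw [card_eq_zero] at h1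
    rw [card_eq_one] at h2
    obtain ⟨x, rfl⟩ := h2
    subst h1
    have h3 : dg G {x} x = 0 := by
      rw [← dg_erase_self, erase_singleton]; simp [dg]
    simp [DD, h3] at hw
  have hu2 : ∀ u ∈ U, ((Tm u).filter (fun t => φ t ∈ X)).card = 2 := by
    intro u hu
    have hle : ((Tm u).filter (fun t => φ t ∈ X)).card ≤ 2 := by
      rw [← hcard u (hU hu)]; exact card_filter_le _ _
    by_contra hne
    have hA := A_eraseU hdis hU hu (fun t => φ t ∈ X)
    have hUc := card_erase_of_mem hu
    have hUp : 0 < U.card := card_pos.2 ⟨u, hu⟩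
    have hO' : Ok G F UU Tm φ (U.erase u) X :=
      ⟨(erase_subset _ _).trans hU, hX, hφ, by omega, by omega⟩
    have := hmin _ _ _ hO'
    omega
  have hall : ∀ t ∈ U.biUnion Tm, φ t ∈ X := by
    intro t ht
    rw [mem_biUnion] at ht
    obtain ⟨u, hu, ht⟩ := ht
    have h1 : (Tm u).filter (fun t => φ t ∈ X) = Tm u :=
      eq_of_subset_of_card_le (filter_subset _ _) (by rw [hu2 u hu, hcard u (hU hu)])
    rw [← h1, mem_filter] at ht
    exact ht.2
  have hAall : (U.biUnion Tm).filter (fun t => φ t ∈ X) = U.biUnion Tm :=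
    filter_true_of_mem hall
  rw [hAall, hcT] at hw
  have hqsum : ∑ x ∈ X, qq G (U.biUnion Tm) X φ x = DD G X + 2 * U.card := by
    unfold qq DD
    rw [sum_add_distrib, ← card_eq_sum_card_fiberwise hall, hcT]
  -- removal of x
  have hrem : ∀ x ∈ X, 2 * (U.card + X.card) + 2 * qq G (U.biUnion Tm) X φ x ≤
      DD G X + 4 * U.card + 2 → False := by
    intro x hx h
    have hA := A_eraseX (U.biUnion Tm) X φ hx
    rw [hAall, hcT] at hA
    have hD := DD_erase (G := G) hx
    have hXc := card_erase_of_mem hx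
    unfold qq at h
    have hO' : Ok G F UU Tm φ U (X.erase x) :=
      ⟨hU, (erase_subset _ _).trans hX, hφ, by omega, by omega⟩
    have := hmin _ _ _ hO'
    omega
  have hq2 : ∀ x ∈ X, 2 ≤ qq G (U.biUnion Tm) X φ x := by
    intro x hx
    by_contra hlt
    exact hrem x hx (by omega)
  have hge : 2 * X.card ≤ DD G X + 2 * U.card := by omega
  have hq3 : ∀ x ∈ X, qq G (U.biUnion Tm) X φ x ≤ 3 := by
    intro x hx
    have hd : Disjoint X (U.biUnion Tm) := by
      rw [disjoint_right]
      intro t ht htX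
      rw [mem_biUnion] at ht
      obtain ⟨u, hu, ht⟩ := ht
      exact hTF u (hU hu) t ht (hX htX)
    have h1 : ((U.biUnion Tm).filter (fun t => φ t = x)).card ≤ dg G (U.biUnion Tm) x := by
      refine card_le_card fun t ht => ?_
      rw [mem_filter] at ht ⊢
      refine ⟨ht.1, ?_⟩
      have ht1 := ht.1
      rw [mem_biUnion] at ht1
      obtain ⟨u, hu, ht2⟩ := ht1
      have h2 := (hφ u (hU hu) t ht2).2
      rw [ht.2] at h2
      exact h2.symm
    have h2 := dg_union (G := G) hd x
    have h3 := dg_le_degree (G := G) (X ∪ U.biUnion Tm) x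
    have h4 := hdeg x
    unfold qq
    omega
  have heq : DD G X + 2 * U.card = 2 * X.card := by
    by_contra hne
    obtain ⟨e, he⟩ := DD_even (G := G) X
    have h2 : 2 * X.card + 2 ≤ DD G X + 2 * U.card := by omega
    rcases U.eq_empty_or_nonempty with hU0 | ⟨u, hu⟩
    · by_cases hex : ∃ x ∈ X, qq G (U.biUnion Tm) X φ x ≤ 2
      · obtain ⟨x, hx, hxq⟩ := hex
        have hU0c : U.card = 0 := by rw [hU0]; rfl
        exact hrem x hx (by omega)
      · obtain ⟨x, hx⟩ := hXne
        have hU0c : U.card = 0 := by rw [hU0]; rfl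
        have h3 : ∀ y ∈ X, 3 ≤ qq G (U.biUnion Tm) X φ y := by
          intro y hy
          by_contra hlt
          exact hex ⟨y, hy, by omega⟩
        have h4 : X.card * 3 ≤ ∑ y ∈ X, qq G (U.biUnion Tm) X φ y := by
          rw [← smul_eq_mul]; exact card_nsmul_le_sum _ _ _ h3
        have h5 : 4 ≤ X.card := by
          have h6 := h3 x hx
          have h7 : dg G X x ≤ X.card - 1 := by
            rw [← dg_erase_self, ← card_erase_of_mem hx]
            exact card_filter_le _ _
          unfold qq at h6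
          rw [hU0] at h6
          simp at h6
          omega
        have h6 := hq3 x hx
        exact hrem x hx (by omega)
    · have hA := A_eraseU hdis hU hu (fun t => φ t ∈ X)
      rw [hAall, hcT, hu2 u hu] at hA
      have hUc := card_erase_of_mem hu
      have hUp : 0 < U.card := card_pos.2 ⟨u, hu⟩
      have hO' : Ok G F UU Tm φ (U.erase u) X :=
        ⟨(erase_subset _ _).trans hU, hX, hφ, by omega, by omega⟩
      have := hmin _ _ _ hO'
      omega
  refine ⟨hall, ?_⟩
  have h5 : ∑ x ∈ X, 2 = ∑ x ∈ X, qq G (U.biUnion Tm) X φ x := by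
    rw [hqsum, heq, sum_const, smul_eq_mul, mul_comm]
  intro x hx
  exact ((sum_eq_sum_iff_of_le hq2).1 h5 x hx).symm

theorem core (F UU : Finset V) (Tm : V → Finset V)
    (hdis : ∀ u ∈ UU, ∀ v ∈ UU, u ≠ v → Disjoint (Tm u) (Tm v))
    (hcard : ∀ u ∈ UU, (Tm u).card = 2)
    (hTF : ∀ u ∈ UU, ∀ t ∈ Tm u, t ∉ F)
    (hTF2 : ∀ u ∈ UU, ∀ t ∈ Tm u, dg G F t = 2)
    (hdeg : ∀ v, G.degree v ≤ 3) (hF : F.Nonempty)
    (hw : 2 * F.card ≤ DD G F + 2 * UU.card) :
    ∃ U X : Finset V, U ⊆ UU ∧ X ⊆ F ∧ 0 < U.card + X.card ∧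
      (∀ u ∈ U, ∀ t ∈ Tm u, dg G X t = 1) ∧
      ∀ x ∈ X, dg G X x + dg G (U.biUnion Tm) x = 2 := by
  classical
  have hφ0 : ∃ φ : V → V, ∀ u ∈ UU, ∀ t ∈ Tm u, φ t ∈ F ∧ G.Adj t (φ t) := by
    refine ⟨fun t => if h : ∃ y ∈ F, G.Adj t y then h.choose else t, fun u hu t ht => ?_⟩
    have h : ∃ y ∈ F, G.Adj t y := dg_pos.1 (by rw [hTF2 u hu t ht]; norm_num)
    simp only [dif_pos h]
    exact h.choose_spec
  obtain ⟨φ0, hφ0⟩ := hφ0
  have hex : ∃ c, ∃ φ U X, Ok G F UU Tm φ U X ∧ U.card + X.card = c := by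
    refine ⟨_, φ0, UU, F, ⟨subset_rfl, subset_rfl, hφ0, ?_, ?_⟩, rfl⟩
    · have h1 : (UU.biUnion Tm).filter (fun t => φ0 t ∈ F) = UU.biUnion Tm := by
        refine filter_true_of_mem fun t ht => ?_
        rw [mem_biUnion] at ht
        obtain ⟨u, hu, ht⟩ := ht
        exact (hφ0 u hu t ht).1
      rw [h1, card_T hdis hcard subset_rfl]
      omega
    · have := hF.card_pos
      omega
  obtain ⟨φ, U, X, hO, hc⟩ := Nat.find_spec hex
  have hmin : ∀ φ' U' X', Ok G F UU Tm φ' U' X' → U.card + X.card ≤ U'.card + X'.card := by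
    intro φ' U' X' h
    rw [hc]
    exact Nat.find_min' hex ⟨φ', U', X', h, rfl⟩
  obtain ⟨hall, hq⟩ := minq hdis hcard hTF hdeg hO hmin
  have hsw : ∀ t ∈ U.biUnion Tm, ∀ y ∈ X, G.Adj t y → y = φ t := by
    intro t ht y hy hty
    by_contra hne
    have hall' : ∀ s ∈ U.biUnion Tm, Function.update φ t y s ∈ X := by
      intro s hs
      by_cases h : s = t
      · subst h; simpa using hy
      · rw [Function.update_of_ne h]; exact hall s hs
    have hO' : Ok G F UU Tm (Function.update φ t y) U X := by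
      refine ⟨hO.hU, hO.hX, ?_, ?_, hO.hpos⟩
      · intro u hu s hs
        by_cases h : s = t
        · subst h
          rw [Function.update_self]
          exact ⟨hO.hX hy, hty⟩
        · rw [Function.update_of_ne h]; exact hO.hφ u hu s hs
      · have h1 := hO.hw
        rw [filter_true_of_mem hall] at h1
        rw [filter_true_of_mem hall']
        exact h1
    have hq' := (minq hdis hcard hTF hdeg hO' hmin).2 (φ t) (hall t ht)
    have hq0 := hq (φ t) (hall t ht)
    have h3 : ((U.biUnion Tm).filter (fun s => Function.update φ t y s = φ t)) =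
        ((U.biUnion Tm).filter (fun s => φ s = φ t)).erase t := by
      ext s
      simp only [mem_filter, mem_erase]
      constructor
      · rintro ⟨h1, h2⟩
        by_cases h : s = t
        · subst h
          rw [Function.update_self] at h2
          exact absurd h2 hne
        · rw [Function.update_of_ne h] at h2
          exact ⟨h, h1, h2⟩
      · rintro ⟨h, h1, h2⟩
        rw [Function.update_of_ne h]
        exact ⟨h1, h2⟩
    have h4 : t ∈ (U.biUnion Tm).filter (fun s => φ s = φ t) := mem_filter.2 ⟨ht, rfl⟩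
    have h5 := card_erase_of_mem h4
    have h6 : 0 < ((U.biUnion Tm).filter (fun s => φ s = φ t)).card := card_pos.2 ⟨t, h4⟩
    unfold qq at hq' hq0
    rw [h3] at hq'
    omega
  refine ⟨U, X, hO.hU, hO.hX, hO.hpos, ?_, ?_⟩
  · intro u hu t ht
    have ht' : t ∈ U.biUnion Tm := mem_biUnion.2 ⟨u, hu, ht⟩
    have : X.filter (fun y => G.Adj t y) = {φ t} := by
      ext y
      rw [mem_filter, mem_singleton]
      constructor
      · rintro ⟨h1, h2⟩; exact hsw t ht' y h1 h2
      · rintro rfl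
        exact ⟨hall t ht', (hO.hφ u (hO.hU hu) t ht).2⟩
    rw [dg, this, card_singleton]
  · intro x hx
    have h1 := hq x hx
    have h2 : (U.biUnion Tm).filter (fun y => G.Adj x y) =
        (U.biUnion Tm).filter (fun t => φ t = x) := by
      ext t
      simp only [mem_filter]
      constructor
      · rintro ⟨h3, h4⟩; exact ⟨h3, (hsw t h3 x hx h4.symm).symm⟩
      · rintro ⟨h3, h4⟩
        refine ⟨h3, ?_⟩
        have h3' := h3
        rw [mem_biUnion] at h3'
        obtain ⟨u, hu, h5⟩ := h3'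
        have := (hO.hφ u (hO.hU hu) t h5).2
        rw [h4] at this
        exact this.symm
    unfold qq at h1
    have h6 : dg G (U.biUnion Tm) x = ((U.biUnion Tm).filter (fun t => φ t = x)).card := by
      rw [dg, h2]
    rw [h6]
    exact h1

end H93.CI
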