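import Pool.Agent.H93.CI.Swap

/-!
# Induced 2-regular subgraphs: the counts and the bound
-/

namespace H93.CI

set_option linter.unusedSectionVars false

open Finset

variable {V : Type*} [Fintype V] [DecidableEq V] {G : SimpleGraph V} [DecidableRel G.Adj]

/-- vertices outside `S` with a neighbour in `S` -/
def WW (G : SimpleGraph V) [DecidableRel G.Adj] (S : Finset V) : Finset V :=
  univ.filter (fun t => t ∉ S ∧ dg G S t ≠ 0)

theorem mem_WW {S : Finset V} {t : V} : t ∈ WW G S ↔ t ∉ S ∧ dg G S t ≠ 0 := by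
  simp [WW]

theorem disj1 (S : Finset V) : Disjoint (S ∪ FF G S) (WW G S) := by
  rw [disjoint_left]
  intro t ht ht'
  rw [mem_union, mem_FF] at ht
  rw [mem_WW] at ht'
  rcases ht with h | h
  · exact ht'.1 h
  · exact ht'.2 h.2

theorem cover (S : Finset V) : (S ∪ FF G S) ∪ WW G S = univ := by
  ext t
  simp only [mem_union, mem_FF, mem_WW, mem_univ, iff_true]
  by_cases h : t ∈ S
  · simp [h]
  · by_cases h' : dg G S t = 0
    · simp [h, h']
    · simp [h, h']

theorem sum_split (S : Finset V) (f : V → ℕ) :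
    ∑ v, f v = ∑ v ∈ S, f v + ∑ v ∈ FF G S, f v + ∑ v ∈ WW G S, f v := by
  rw [← sum_union (FF_disj (G := G) S).symm, ← sum_union (disj1 (G := G) S), cover]

theorem card_split (S : Finset V) :
    Fintype.card V = S.card + (FF G S).card + (WW G S).card := by
  have h := sum_split (G := G) S (fun _ => 1)
  simpa using h

theorem sum_S {S : Finset V} (hdeg : ∀ v, G.degree v ≤ 3) (hS : Rg G S) :
    ∑ v ∈ S, G.degree v = 2 * S.card + ∑ t ∈ WW G S, dg G S t ∧
      ∑ t ∈ WW G S, dg G S t ≤ S.card := by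
  have h1 : ∑ v ∈ S, G.degree v = ∑ v ∈ S, (2 + dg G (univ \ S) v) := by
    refine sum_congr rfl fun v hv => ?_
    rw [← dg_compl S v, hS v hv]
  have h2 : ∑ v ∈ S, dg G (univ \ S) v = ∑ t ∈ WW G S, dg G S t := by
    rw [dg_double]
    symm
    refine sum_subset (fun t ht => ?_) (fun t ht ht' => ?_)
    · rw [mem_sdiff]
      exact ⟨mem_univ _, (mem_WW.1 ht).1⟩
    · rw [mem_sdiff] at ht
      by_contra hne
      exact ht' (mem_WW.2 ⟨ht.2, hne⟩)
  rw [sum_add_distrib, h2, sum_const, smul_eq_mul, mul_comm] at h1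
  refine ⟨h1, ?_⟩
  rw [← h2]
  calc ∑ v ∈ S, dg G (univ \ S) v ≤ ∑ v ∈ S, 1 :=
        sum_le_sum fun v hv => dg_le_one hdeg hS sdiff_disjoint hv
    _ = S.card := by simp

theorem sum_F (S : Finset V) :
    ∑ v ∈ FF G S, G.degree v = DD G (FF G S) + ∑ t ∈ WW G S, dg G (FF G S) t := by
  rw [← dg_double, DD, ← sum_add_distrib]
  refine sum_congr rfl fun v hv => ?_
  have h1 := dg_union (G := G) (disj1 (G := G) S) v
  have h2 := dg_union (G := G) (FF_disj (G := G) S).symm v
  rw [cover, dg_univ] at h1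
  have h3 := (mem_FF.1 hv).2
  omega

theorem sum_W {S : Finset V} (hdeg : ∀ v, G.degree v ≤ 3) :
    ∑ t ∈ WW G S, (G.degree t + dg G (FF G S) t) ≤
      2 * (WW G S).card + 2 * ∑ t ∈ WW G S, dg G S t + (Dt G S).card := by
  have h1 : (Dt G S).card = ∑ t ∈ WW G S, if t ∈ Dt G S then 1 else 0 := by
    rw [← card_filter]
    congr 1
    ext t
    rw [mem_filter]
    constructor
    · intro h
      refine ⟨mem_WW.2 ⟨(mem_Dt.1 h).1, ?_⟩, h⟩
      have := (mem_Dt.1 h).2.1
      omega
    · exact fun h => h.2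
  have h2 : ∑ t ∈ WW G S, (2 + 2 * dg G S t + if t ∈ Dt G S then 1 else 0) =
      2 * (WW G S).card + 2 * ∑ t ∈ WW G S, dg G S t + (Dt G S).card := by
    rw [sum_add_distrib, sum_add_distrib, sum_const, ← mul_sum, ← h1, smul_eq_mul]
    ring
  rw [← h2]
  refine sum_le_sum fun t ht => ?_
  have ht' := mem_WW.1 ht
  have e1 := dg_union (G := G) (FF_disj (G := G) S).symm t
  have e2 := dg_le_degree (G := G) (S ∪ FF G S) t
  have e3 := hdeg t
  split_ifs with h
  · omega
  · have e4 : ¬ (dg G S t = 1 ∧ dg G (FF G S) t = 2) :=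
      fun hc => h (mem_Dt.2 ⟨ht'.1, hc.1, hc.2⟩)
    omega

/-- the degree count -/
theorem count {S : Finset V} (hdeg : ∀ v, G.degree v ≤ 3) (hS : Rg G S) :
    2 * G.edgeFinset.card + 2 * (FF G S).card ≤
      2 * Fintype.card V + 3 * S.card + DD G (FF G S) + (Dt G S).card := by
  have h1 := G.sum_degrees_eq_twice_card_edges
  have h2 := sum_split (G := G) S (fun v => G.degree v)
  have h3 := sum_S hdeg hS
  have h4 := sum_F (G := G) S
  have h5 := sum_W (G := G) (S := S) hdeg
  have h6 := card_split (G := G) S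
  rw [sum_add_distrib] at h5
  omega

/-- the degree count when `FF` is empty -/
theorem count0 {S : Finset V} (hdeg : ∀ v, G.degree v ≤ 3) (hS : Rg G S)
    (hF : FF G S = ∅) : G.edgeFinset.card ≤ Fintype.card V + S.card ∧
      (WW G S).card ≤ S.card := by
  have h1 := G.sum_degrees_eq_twice_card_edges
  have h2 := sum_split (G := G) S (fun v => G.degree v)
  have h3 := sum_S hdeg hS
  have h6 := card_split (G := G) S
  have h7 : ∑ v ∈ WW G S, G.degree v ≤ 3 * (WW G S).card := by
    rw [mul_comm, ← smul_eq_mul, ← sum_const]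
    exact sum_le_sum fun v _ => hdeg v
  have h8 : (WW G S).card ≤ ∑ t ∈ WW G S, dg G S t := by
    rw [card_eq_sum_ones]
    refine sum_le_sum fun t ht => ?_
    have := (mem_WW.1 ht).2
    omega
  rw [hF] at h2 h6
  simp only [sum_empty, card_empty] at h2 h6
  omega

/-- the ball of radius two -/
theorem card_ball {S : Finset V} (hS : Rg G S) {u : V} (hu : u ∈ S) :
    (S.filter (fun v => Cf G S u v)).card ≤ 5 := by
  set N : V → Finset V := fun s => S.filter (fun y => G.Adj s y) with hN
  have hN2 : ∀ s ∈ S, (N s).card = 2 := fun s hs => hS s hs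
  have hsub : S.filter (fun v => Cf G S u v) ⊆
      insert u (N u ∪ (N u).biUnion (fun s => (N s).erase u)) := by
    intro v hv
    rw [mem_filter] at hv
    obtain ⟨hvS, s, hs, h1, h2⟩ := hv
    rw [mem_insert, mem_union, mem_biUnion]
    by_cases hvu : v = u
    · exact Or.inl hvu
    right
    rcases h1 with rfl | h1
    · left
      rcases h2 with h2 | h2
      · exact absurd h2.symm hvu
      · exact mem_filter.2 ⟨hvS, h2.symm⟩
    · rcases h2 with rfl | h2
      · exact Or.inl (mem_filter.2 ⟨hvS, h1⟩)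
      · right
        refine ⟨s, mem_filter.2 ⟨hs, h1⟩, mem_erase.2 ⟨hvu, mem_filter.2 ⟨hvS, h2.symm⟩⟩⟩
  have hb : ((N u).biUnion (fun s => (N s).erase u)).card ≤ 2 := by
    refine card_biUnion_le.trans ?_
    have : ∀ s ∈ N u, ((N s).erase u).card ≤ 1 := by
      intro s hs
      have hs' := mem_filter.1 hs
      have hmem : u ∈ N s := mem_filter.2 ⟨hu, hs'.2.symm⟩
      rw [card_erase_of_mem hmem, hN2 s hs'.1]
    calc ∑ s ∈ N u, ((N s).erase u).card ≤ ∑ s ∈ N u, 1 := sum_le_sum this
      _ = 2 := by rw [sum_const, smul_eq_mul, mul_one, hN2 u hu]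
  have h3 := card_le_card hsub
  have h4 := card_insert_le u (N u ∪ (N u).biUnion (fun s => (N s).erase u))
  have h5 := card_union_le (N u) ((N u).biUnion (fun s => (N s).erase u))
  have h6 := hN2 u hu
  omega

/-- a maximal family of centres without conflicts -/
theorem family {S : Finset V} (hdeg : ∀ v, G.degree v ≤ 3) (hS : Rg G S) :
    ∃ UU ⊆ Cn G S, (∀ u ∈ UU, ∀ v ∈ UU, u ≠ v → ¬ Cf G S u v) ∧
      2 * (Dt G S).card ≤ 5 * UU.card + S.card := by
  classical
  obtain ⟨UU, hUU, hmax⟩ := exists_max_image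
    ((Cn G S).powerset.filter (fun U => ∀ u ∈ U, ∀ v ∈ U, u ≠ v → ¬ Cf G S u v)) card
    ⟨∅, by simp⟩
  rw [mem_filter, mem_powerset] at hUU
  refine ⟨UU, hUU.1, hUU.2, ?_⟩
  have hCS : Cn G S ⊆ S := filter_subset _ _
  have hcov : Cn G S ⊆ UU.biUnion (fun u => S.filter (fun v => Cf G S u v)) := by
    intro c hc
    rw [mem_biUnion]
    by_contra hno
    have hno' : ∀ u ∈ UU, ¬ Cf G S u c := by
      intro u hu h
      exact hno ⟨u, hu, mem_filter.2 ⟨hCS hc, h⟩⟩
    have hsym : ∀ u v, Cf G S u v → Cf G S v u := by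
      rintro u v ⟨s, hs, h1, h2⟩
      exact ⟨s, hs, h2, h1⟩
    have hcU : c ∉ UU := fun h => hno' c h ⟨c, hCS hc, Or.inl rfl, Or.inl rfl⟩
    have h1 := hmax (insert c UU) (by
      rw [mem_filter, mem_powerset]
      refine ⟨insert_subset hc hUU.1, ?_⟩
      intro u hu v hv huv
      rw [mem_insert] at hu hv
      rcases hu with rfl | hu
      · rcases hv with rfl | hv
        · exact absurd rfl huv
        · exact fun h => hno' v hv (hsym _ _ h)
      · rcases hv with rfl | hv
        · exact hno' u hu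
        · exact hUU.2 u hu v hv huv)
    rw [card_insert_of_notMem hcU] at h1
    omega
  have h1 : (Cn G S).card ≤ 5 * UU.card := by
    refine (card_le_card hcov).trans (card_biUnion_le.trans ?_)
    calc ∑ u ∈ UU, (S.filter (fun v => Cf G S u v)).card ≤ ∑ u ∈ UU, 5 :=
          sum_le_sum fun u hu => card_ball hS (hCS (hUU.1 hu))
      _ = 5 * UU.card := by rw [sum_const, smul_eq_mul, mul_comm]
  have h2 : 2 * (Gd G S).card ≤ S.card + (Cn G S).card := by
    have e1 : ∑ s ∈ Gd G S, dg G S s = 2 * (Gd G S).card := by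
      have e0 : ∀ s ∈ Gd G S, dg G S s = 2 := fun s hs => hS s (mem_filter.1 hs).1
      rw [sum_congr rfl e0, sum_const, smul_eq_mul, mul_comm]
    have e2 : (Cn G S).card = ∑ u ∈ S, if dg G (Gd G S) u = 2 then 1 else 0 := by
      rw [Cn, card_filter]
    rw [← e1, dg_double, e2, card_eq_sum_ones, ← sum_add_distrib]
    refine sum_le_sum fun u hu => ?_
    have e3 := dg_mono (G := G) (filter_subset (fun s => dg G (Dt G S) s = 1) S) u
    have e4 := hS u hu
    have e5 : dg G (Gd G S) u ≤ dg G S u := e3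
    split_ifs <;> omega
  have h3 := card_Dt hdeg hS
  omega

/-- the bound -/
theorem main [Nonempty V] (hdeg : ∀ v, G.degree v ≤ 3) :
    ∃ S : Finset V, Rg G S ∧ 5 * (G.edgeFinset.card + 1) ≤ 9 * S.card + 5 * Fintype.card V := by
  classical
  obtain ⟨S, hS, hmax⟩ := exists_max_image
    ((univ : Finset (Finset V)).filter (fun S => Rg G S)) card ⟨∅, by simp [Rg]⟩
  rw [mem_filter] at hS
  replace hS := hS.2
  refine ⟨S, hS, ?_⟩
  rcases (FF G S).eq_empty_or_nonempty with hF | hF
  · obtain ⟨h1, h2⟩ := count0 hdeg hS hF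
    rcases S.eq_empty_or_nonempty with h0 | ⟨v, hv⟩
    · exfalso
      have h3 := card_split (G := G) S
      have h4 : 0 < Fintype.card V := Fintype.card_pos
      rw [hF] at h3
      rw [h0] at h2
      have h5 : S.card = 0 := by rw [h0]; rfl
      rw [h5] at h3
      simp only [card_empty] at h2 h3
      rw [h0] at h3
      omega
    · have h3 : dg G S v ≤ S.card - 1 := by
        rw [← dg_erase_self, ← card_erase_of_mem hv]
        exact card_filter_le _ _
      have h4 := hS v hv
      omega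
  · obtain ⟨UU, hUC, hcf, hcount⟩ := family hdeg hS
    have hno : ¬ 2 * (FF G S).card ≤ DD G (FF G S) + 2 * UU.card := by
      intro hw
      obtain ⟨U, X, hU, hX, hpos, h1, h2⟩ := core (G := G) (FF G S) UU (Tm G S)
        (fun u hu v hv huv => Tm_disj (hcf u hu v hv huv))
        (fun u hu => card_Tm hS (hUC hu))
        (fun u hu t ht => disjoint_left.1 (Dt_FF_disj (G := G) S) (mem_filter.1 ht).1)
        (fun u hu t ht => (mem_Dt.1 (mem_filter.1 ht).1).2.2) hdeg hF hw
      obtain ⟨S', hS', hc⟩ := swap hdeg hS hUC hcf hU hX h1 h2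
      have := hmax S' (by rw [mem_filter]; exact ⟨mem_univ _, hS'⟩)
      omega
    obtain ⟨e, he⟩ := DD_even (G := G) (FF G S)
    have h1 := count hdeg hS
    have h2 := card_Dt hdeg hS
    have h3 : (Gd G S).card ≤ S.card := card_filter_le _ _
    omega

end H93.CI
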