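import Pool.Agent.H93.CI.Core

/-!
# Induced 2-regular subgraphs: the swap
-/

namespace H93.CI

set_option linter.unusedSectionVars false

open Finset

variable {V : Type*} [Fintype V] [DecidableEq V] (G : SimpleGraph V) [DecidableRel G.Adj]

/-- every vertex of `S` has exactly two neighbours in `S` -/
def Rg (S : Finset V) : Prop := ∀ v ∈ S, dg G S v = 2

/-- vertices outside `S` without neighbours in `S` -/
def FF (S : Finset V) : Finset V := univ.filter (fun t => t ∉ S ∧ dg G S t = 0)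

/-- vertices outside `S` with one neighbour in `S` and two in `FF S` -/
def Dt (S : Finset V) : Finset V :=
  univ.filter (fun t => t ∉ S ∧ dg G S t = 1 ∧ dg G (FF G S) t = 2)

/-- good vertices -/
def Gd (S : Finset V) : Finset V := S.filter (fun s => dg G (Dt G S) s = 1)

/-- centres -/
def Cn (S : Finset V) : Finset V := S.filter (fun u => dg G (Gd G S) u = 2)

/-- conflict -/
def Cf (S : Finset V) (u v : V) : Prop := ∃ s ∈ S, (s = u ∨ G.Adj u s) ∧ (s = v ∨ G.Adj v s)

instance (S : Finset V) (u v : V) : Decidable (Cf G S u v) := by unfold Cf; infer_instance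

/-- the two `Dt`-vertices of the window with centre `u` -/
def Tm (S : Finset V) (u : V) : Finset V :=
  (Dt G S).filter (fun t => ∃ s ∈ S, G.Adj u s ∧ G.Adj s t)

variable {G}

theorem dg_le_one {S A : Finset V} (hdeg : ∀ v, G.degree v ≤ 3) (hS : Rg G S)
    (hA : Disjoint A S) {s : V} (hs : s ∈ S) : dg G A s ≤ 1 := by
  have h1 := dg_union (G := G) hA s
  have h2 := dg_le_degree (G := G) (A ∪ S) s
  have h3 := hdeg s
  have h4 := hS s hs
  omega

theorem Dt_disj (S : Finset V) : Disjoint (Dt G S) S := by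
  rw [disjoint_left]
  intro t ht
  rw [Dt, mem_filter] at ht
  exact ht.2.1

theorem FF_disj (S : Finset V) : Disjoint (FF G S) S := by
  rw [disjoint_left]
  intro t ht
  rw [FF, mem_filter] at ht
  exact ht.2.1

theorem Dt_FF_disj (S : Finset V) : Disjoint (Dt G S) (FF G S) := by
  rw [disjoint_left]
  intro t ht ht'
  rw [Dt, mem_filter] at ht
  rw [FF, mem_filter] at ht'
  omega

theorem card_Dt {S : Finset V} (hdeg : ∀ v, G.degree v ≤ 3) (hS : Rg G S) :
    (Dt G S).card = (Gd G S).card := by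
  have h1 := dg_double (G := G) (Dt G S) S
  have h2 : ∑ a ∈ Dt G S, dg G S a = (Dt G S).card := by
    rw [card_eq_sum_ones]
    refine sum_congr rfl fun t ht => ?_
    rw [Dt, mem_filter] at ht
    exact ht.2.2.1
  have h3 : ∑ b ∈ S, dg G (Dt G S) b = (Gd G S).card := by
    rw [Gd, card_filter]
    refine sum_congr rfl fun s hs => ?_
    have := dg_le_one hdeg hS (Dt_disj (G := G) S) hs
    split_ifs with h
    · exact h
    · omega
  omega

theorem uniq {S : Finset V} {t s s' : V} (ht : dg G S t = 1) (hs : s ∈ S) (hs' : s' ∈ S)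
    (h : G.Adj t s) (h' : G.Adj t s') : s = s' := by
  rw [dg, card_eq_one] at ht
  obtain ⟨a, ha⟩ := ht
  have h1 : s ∈ S.filter (fun y => G.Adj t y) := mem_filter.2 ⟨hs, h⟩
  have h2 : s' ∈ S.filter (fun y => G.Adj t y) := mem_filter.2 ⟨hs', h'⟩
  rw [ha, mem_singleton] at h1 h2
  rw [h1, h2]

theorem mem_Dt {S : Finset V} {t : V} :
    t ∈ Dt G S ↔ t ∉ S ∧ dg G S t = 1 ∧ dg G (FF G S) t = 2 := by
  simp [Dt]

theorem mem_FF {S : Finset V} {t : V} : t ∈ FF G S ↔ t ∉ S ∧ dg G S t = 0 := by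
  simp [FF]

theorem Tm_disj {S : Finset V} {u v : V} (h : ¬ Cf G S u v) :
    Disjoint (Tm G S u) (Tm G S v) := by
  rw [disjoint_left]
  intro t ht ht'
  rw [Tm, mem_filter] at ht ht'
  obtain ⟨hD, s, hs, h1, h2⟩ := ht
  obtain ⟨_, s', hs', h1', h2'⟩ := ht'
  have e := uniq (mem_Dt.1 hD).2.1 hs hs' h2.symm h2'.symm
  subst e
  exact h ⟨s, hs, Or.inr h1, Or.inr h1'⟩

/-- the neighbours in `S` of a centre are good -/
theorem Cn_good {S : Finset V} (hS : Rg G S) {u s : V} (hu : u ∈ Cn G S) (hs : s ∈ S)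
    (h : G.Adj u s) : dg G (Dt G S) s = 1 := by
  rw [Cn, mem_filter] at hu
  have h1 : (Gd G S).filter (fun y => G.Adj u y) = S.filter (fun y => G.Adj u y) := by
    refine eq_of_subset_of_card_le (filter_subset_filter _ (filter_subset _ _)) ?_
    have h2 := hS u hu.1
    have h3 := hu.2
    unfold dg at h2 h3
    omega
  have h2 : s ∈ S.filter (fun y => G.Adj u y) := mem_filter.2 ⟨hs, h⟩
  rw [← h1, mem_filter, Gd, mem_filter] at h2
  exact h2.1.2

theorem card_Tm {S : Finset V} (hS : Rg G S) {u : V}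
    (hu : u ∈ Cn G S) : (Tm G S u).card = 2 := by
  have huS : u ∈ S := (mem_filter.1 hu).1
  have h1 := dg_double (G := G) (Dt G S) (S.filter (fun y => G.Adj u y))
  have h2 : ∑ b ∈ S.filter (fun y => G.Adj u y), dg G (Dt G S) b = 2 := by
    have : ∀ b ∈ S.filter (fun y => G.Adj u y), dg G (Dt G S) b = 1 := by
      intro b hb
      rw [mem_filter] at hb
      exact Cn_good hS hu hb.1 hb.2
    rw [sum_congr rfl this, sum_const, smul_eq_mul, mul_one]
    exact hS u huS
  have h3 : ∑ a ∈ Dt G S, dg G (S.filter (fun y => G.Adj u y)) a = (Tm G S u).card := by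
    rw [Tm, card_filter]
    refine sum_congr rfl fun t ht => ?_
    have h4 := dg_mono (G := G) (filter_subset (fun y => G.Adj u y) S) t
    rw [(mem_Dt.1 ht).2.1] at h4
    split_ifs with h
    · obtain ⟨s, hs, h5, h6⟩ := h
      have : 0 < dg G (S.filter (fun y => G.Adj u y)) t :=
        dg_pos.2 ⟨s, mem_filter.2 ⟨hs, h5⟩, h6.symm⟩
      omega
    · by_contra hne
      have : 0 < dg G (S.filter (fun y => G.Adj u y)) t := by omega
      obtain ⟨s, hs, h6⟩ := dg_pos.1 this
      rw [mem_filter] at hs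
      exact h ⟨s, hs.1, hs.2, h6.symm⟩
  omega

theorem dg_U_le {S UU : Finset V}
    (hcf : ∀ u ∈ UU, ∀ v ∈ UU, u ≠ v → ¬ Cf G S u v) {s : V} (hs : s ∈ S) : dg G UU s ≤ 1 := by
  rw [dg, card_le_one]
  intro u hu v hv
  rw [mem_filter] at hu hv
  by_contra hne
  exact hcf u hu.1 v hv.1 hne ⟨s, hs, Or.inr hu.2.symm, Or.inr hv.2.symm⟩

theorem swap {S UU : Finset V} (hdeg : ∀ v, G.degree v ≤ 3) (hS : Rg G S) (hUC : UU ⊆ Cn G S)
    (hcf : ∀ u ∈ UU, ∀ v ∈ UU, u ≠ v → ¬ Cf G S u v) {U X : Finset V} (hU : U ⊆ UU)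
    (hX : X ⊆ FF G S) (h1 : ∀ u ∈ U, ∀ t ∈ Tm G S u, dg G X t = 1)
    (h2 : ∀ x ∈ X, dg G X x + dg G (U.biUnion (Tm G S)) x = 2) :
    ∃ S' : Finset V, Rg G S' ∧ S'.card = S.card + U.card + X.card := by
  have hUS : U ⊆ S := fun u hu => (mem_filter.1 (hUC (hU hu))).1
  set T := U.biUnion (Tm G S) with hT
  have hTD : T ⊆ Dt G S := by
    intro t ht
    rw [hT, mem_biUnion] at ht
    obtain ⟨u, _, ht⟩ := ht
    exact (mem_filter.1 ht).1
  have hTS : Disjoint T S := disjoint_of_subset_left hTD (Dt_disj S)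
  have hXS : Disjoint X S := disjoint_of_subset_left hX (FF_disj S)
  have hTX : Disjoint T X := disjoint_of_subset_left hTD
    (disjoint_of_subset_right hX (Dt_FF_disj S))
  have hd1 : Disjoint (S \ U) T := (disjoint_of_subset_right sdiff_subset hTS).symm
  have hd2 : Disjoint ((S \ U) ∪ T) X := by
    rw [disjoint_union_left]
    exact ⟨(disjoint_of_subset_right sdiff_subset hXS).symm, hTX⟩
  have hsplit : ∀ v, dg G (((S \ U) ∪ T) ∪ X) v = dg G (S \ U) v + dg G T v + dg G X v := by
    intro v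
    rw [dg_union hd2, dg_union hd1]
  have hSU : ∀ v, dg G (S \ U) v + dg G U v = dg G S v := by
    intro v
    rw [← dg_union sdiff_disjoint, sdiff_union_of_subset hUS]
  have hF0 : ∀ x ∈ X, dg G S x = 0 := fun x hx => (mem_FF.1 (hX hx)).2
  refine ⟨((S \ U) ∪ T) ∪ X, ?_, ?_⟩
  · intro v hv
    rw [hsplit]
    rw [mem_union, mem_union, mem_sdiff] at hv
    rcases hv with (⟨hvS, hvU⟩ | hvT) | hvX
    · have e1 := hSU v
      have e2 := hS v hvS
      have e3 : dg G X v = 0 := by
        by_contra hne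
        obtain ⟨x, hx, hvx⟩ := dg_pos.1 (Nat.pos_of_ne_zero hne)
        have := dg_pos.2 ⟨v, hvS, hvx.symm⟩
        have h0 := hF0 x hx
        omega
      have e4 := dg_le_one hdeg hS hTS hvS
      have e5 : dg G U v ≤ 1 := (dg_mono hU v).trans (dg_U_le hcf hvS)
      have e6 : 0 < dg G U v → 0 < dg G T v := by
        intro h
        obtain ⟨u, hu, hvu⟩ := dg_pos.1 h
        have hg := Cn_good hS (hUC (hU hu)) hvS hvu.symm
        obtain ⟨t, ht, hvt⟩ := dg_pos.1 (show 0 < dg G (Dt G S) v by omega)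
        exact dg_pos.2 ⟨t, mem_biUnion.2 ⟨u, hu, mem_filter.2 ⟨ht, v, hvS, hvu.symm, hvt⟩⟩, hvt⟩
      have e7 : 0 < dg G T v → 0 < dg G U v := by
        intro h
        obtain ⟨t, ht, hvt⟩ := dg_pos.1 h
        rw [hT, mem_biUnion] at ht
        obtain ⟨u, hu, ht⟩ := ht
        rw [Tm, mem_filter] at ht
        obtain ⟨hD, s, hs, h3, h4⟩ := ht
        have e := uniq (mem_Dt.1 hD).2.1 hs hvS h4.symm hvt.symm
        subst e
        exact dg_pos.2 ⟨u, hu, h3.symm⟩
      omega
    · have hD := mem_Dt.1 (hTD hvT)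
      have hvT' := hvT
      rw [hT, mem_biUnion] at hvT'
      obtain ⟨u, hu, ht⟩ := hvT'
      have e1 := h1 u hu v ht
      have e2 := hSU v
      have e3 : dg G U v = 0 := by
        by_contra hne
        obtain ⟨u', hu', hvu⟩ := dg_pos.1 (Nat.pos_of_ne_zero hne)
        rw [Tm, mem_filter] at ht
        obtain ⟨_, s, hs, h3, h4⟩ := ht
        have e := uniq hD.2.1 hs (hUS hu') h4.symm hvu
        subst e
        exact hcf u (hU hu) s (hU hu') h3.ne ⟨s, hs, Or.inr h3, Or.inl rfl⟩
      have e4 : dg G T v = 0 := by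
        have f1 := dg_union (G := G) (FF_disj (G := G) S).symm v
        have hd3 : Disjoint (S ∪ FF G S) T := by
          rw [disjoint_union_left]
          exact ⟨hTS.symm, (disjoint_of_subset_left hTD (Dt_FF_disj S)).symm⟩
        have f2 := dg_union (G := G) hd3 v
        have f3 := dg_le_degree (G := G) ((S ∪ FF G S) ∪ T) v
        have f4 := hdeg v
        omega
      omega
    · have e1 := hSU v
      have e2 := hF0 v hvX
      have e3 := h2 v hvX
      omega
  · rw [card_union_of_disjoint hd2, card_union_of_disjoint hd1, card_sdiff_of_subset hUS]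
    have e1 : T.card = 2 * U.card := by
      refine card_T (UU := UU) (fun u hu v hv huv => Tm_disj (hcf u hu v hv huv)) ?_ hU
      intro u hu
      exact card_Tm hS (hUC hu)
    have e2 := card_le_card hUS
    omega

end H93.CI
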